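import Pool.Agent.Lib.helper26.GMix

namespace Pool.Agent.Results.MP_ba1a3e_pr.DimFree
open MeasureTheory Real Pool.Agent.Lib.helper26.GMix

/-- density of the Gaussian mixture `μ * N(0, I_d)` -/
noncomputable def f {d : ℕ} (μ : Measure (EuclideanSpace ℝ (Fin d)))
    (x : EuclideanSpace ℝ (Fin d)) : ℝ :=
  ∫ z, (2 * π) ^ (-(d : ℝ) / 2) * exp (-‖x - z‖ ^ 2 / 2) ∂μ

theorem result (M : ℝ) : ∃ C : ℝ, ∀ (d : ℕ) (μ ν : Measure (EuclideanSpace ℝ (Fin d))),
    IsProbabilityMeasure μ → IsProbabilityMeasure ν → μ (Metric.closedBall 0 M)ᶜ = 0 →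
    ν (Metric.closedBall 0 M)ᶜ = 0 →
    Integrable (fun x => f μ x * log (f μ x / f ν x)) ∧
    Integrable (fun x => (f μ x - f ν x) ^ 2 / f ν x) ∧
    Integrable (fun x => (√(f μ x) - √(f ν x)) ^ 2) ∧
    ∫ x, f μ x * log (f μ x / f ν x) ≤ C * ∫ x, (√(f μ x) - √(f ν x)) ^ 2 ∧
    ∫ x, (f μ x - f ν x) ^ 2 / f ν x ≤ C * ∫ x, (√(f μ x) - √(f ν x)) ^ 2 := by
  classical
  refine ⟨9 + (16 * exp (6561 * (|M| * |M|))) ^ 2, fun d μ ν _ _ hμ hν => ?_⟩
  let φ : EuclideanSpace ℝ (Fin d) → ℝ := fun x => (2 * π) ^ (-(d : ℝ) / 2) * exp (-‖x‖ ^ 2 / 2)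
  have φ0 : ∀ x, 0 < φ x := fun x => by positivity
  have φ1 : ∫ x, φ x = 1 := by
    have := GaussianFourier.integral_rexp_neg_mul_sq_norm (V := EuclideanSpace ℝ (Fin d))
      one_half_pos
    simp only [φ, integral_const_mul, show ∀ t : ℝ, -t / 2 = -(1 / 2) * t from fun t => by ring,
      this, finrank_euclideanSpace, Fintype.card_fin]
    rw [show π / (1 / 2) = 2 * π by ring, ← rpow_add (by positivity)]
    convert rpow_zero _; ring
  have φi : Integrable φ := .of_integral_ne_zero (φ1 ▸ one_ne_zero)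
  have mφ : Measurable fun x => (φ x).toNNReal := by fun_prop
  let γ := volume.withDensity fun x => ((φ x).toNNReal : ENNReal)
  have I : ∀ F, Integrable F γ ↔ Integrable fun x => φ x * F x := fun F => by
    simp only [γ, integrable_withDensity_iff_integrable_smul mφ, NNReal.smul_def, smul_eq_mul,
      coe_toNNReal _ (φ0 _).le]
  have I' : ∀ F : _ → ℝ, ∫ x, F x ∂γ = ∫ x, φ x * F x := fun F => by
    simp only [γ, integral_withDensity_eq_integral_smul mφ, NNReal.smul_def, smul_eq_mul,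
      coe_toNNReal _ (φ0 _).le]
  have sh : ∀ θ x, φ x * exp (l θ x) = φ (x - θ) := fun θ x => by
    simp only [φ, mul_assoc, ← exp_add, l, norm_sub_sq_real, real_inner_self_eq_norm_sq,
      real_inner_comm θ x]
    congr 2; ring
  have hγ : ∀ θ, Dens γ (l θ) := fun θ => by
    simp only [Dens, I, I', sh, integral_sub_right_eq_self φ]
    exact ⟨φi.comp_sub_right θ, φ1⟩
  have : IsProbabilityMeasure γ := by
    refine isProbabilityMeasure_iff_real.2 ?_
    simpa [l] using (hγ 0).2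
  let r : EuclideanSpace ℝ (Fin d) → EuclideanSpace ℝ (Fin d) :=
    (Metric.closedBall 0 M).indicator id
  have br : ∀ a, ‖r a‖ ≤ |M| := fun a => by
    simp only [r, Set.indicator]
    split_ifs with h
    exacts [(mem_closedBall_zero_iff.1 h).trans (le_abs_self M), by simp]
  have e : ∀ κ : Measure (EuclideanSpace ℝ (Fin d)), κ (Metric.closedBall 0 M)ᶜ = 0 → ∀ x,
      f κ x = φ x * ∫ θ, exp (l (r θ) x) ∂κ := fun κ h x => by
    rw [← integral_const_mul]
    refine integral_congr_ae ?_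
    filter_upwards [show ∀ᵐ z ∂κ, z ∈ Metric.closedBall 0 M from h] with z hz
    rw [sh, show r z = z from Set.indicator_of_mem hz _]
  have C := core hγ μ ν (r := r) (measurable_id.indicator measurableSet_closedBall)
    (L := |M| * |M|) (fun a b => (abs_real_inner_le_norm _ _).trans (by gcongr <;> apply br))
    (fun _ => rfl) fun _ => rfl
  simp only [I, I'] at C
  simp only [e μ hμ, e ν hν, mul_div_mul_left _ _ (φ0 _).ne', mul_assoc, sqrt_mul (φ0 _).le,
    ← mul_sub, mul_pow, sq_sqrt (φ0 _).le, sq (φ _), mul_div_assoc (φ _),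
    mul_div_mul_left _ _ (φ0 _).ne'] at C ⊢
  exact ⟨C.1, C.2.1, C.2.2.1, C.2.2.2.1.trans C.2.2.2.2, C.2.2.2.2⟩

end Pool.Agent.Results.MP_ba1a3e_pr.DimFree
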